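import Mathlib
import Pool.Agent.W323.PT.Stm

/-!
# Necessary conditions for homogeneous sign tables
-/

set_option autoImplicit false

namespace Pool.Agent.W376.PT
open Pool.Agent.W323.PT

/-- orientation of three points (letter, index) with distinct indices, by the table `σ` -/
def sg (σ : Bool → Bool → Bool → Bool) (u v w : Bool × ℕ) : Bool :=
  if u.2 < v.2 then
    if v.2 < w.2 then σ u.1 v.1 w.1
    else if u.2 < w.2 then !(σ u.1 w.1 v.1)
    else σ w.1 u.1 v.1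
  else
    if u.2 < w.2 then !(σ v.1 u.1 w.1)
    else if v.2 < w.2 then σ v.1 w.1 u.1
    else !(σ w.1 v.1 u.1)

/-- all Bool values -/
def allB (f : Bool → Bool) : Bool := f false && f true

theorem allB_of {f : Bool → Bool} (h : ∀ b, f b = true) : allB f = true := by
  unfold allB
  rw [h, h]
  rfl

/-- the four point condition -/
def f4 (σ : Bool → Bool → Bool → Bool) (b1 b2 b3 b4 : Bool) : Bool :=
  !((σ b2 b3 b4 == !(σ b1 b3 b4)) && (σ b2 b3 b4 == σ b1 b2 b4) && (σ b2 b3 b4 == !(σ b1 b2 b3)))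

/-- the Grassmann-Pluecker condition with apex `a` -/
def gp (σ : Bool → Bool → Bool → Bool) (a b c d e : Bool × ℕ) : Bool :=
  !(((sg σ a b c == sg σ a d e) == !(sg σ a b d == sg σ a c e)) &&
    ((sg σ a b c == sg σ a d e) == (sg σ a b e == sg σ a c d)))

/-- all apices -/
def f5 (σ : Bool → Bool → Bool → Bool) (b0 b1 b2 b3 b4 : Bool) : Bool :=
  gp σ (b0, 0) (b1, 1) (b2, 2) (b3, 3) (b4, 4) && (gp σ (b1, 1) (b0, 0) (b2, 2) (b3, 3) (b4, 4) &&
  (gp σ (b2, 2) (b0, 0) (b1, 1) (b3, 3) (b4, 4) && (gp σ (b3, 3) (b0, 0) (b1, 1) (b2, 2) (b4, 4) &&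
  gp σ (b4, 4) (b0, 0) (b1, 1) (b2, 2) (b3, 3))))

/-- all four point conditions -/
def ok4 (σ : Bool → Bool → Bool → Bool) : Bool :=
  allB fun b1 => allB fun b2 => allB fun b3 => allB fun b4 => f4 σ b1 b2 b3 b4

/-- all five point conditions -/
def ok5 (σ : Bool → Bool → Bool → Bool) : Bool :=
  allB fun b0 => allB fun b1 => allB fun b2 => allB fun b3 => allB fun b4 => f5 σ b0 b1 b2 b3 b4

/-- the necessary conditions -/
def okB (σ : Bool → Bool → Bool → Bool) : Bool := ok4 σ && ok5 σ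

theorem o_swap12 (a b c : Pt) : o b a c = -o a b c := by
  unfold o
  ring

theorem o_swap23 (a b c : Pt) : o a c b = -o a b c := by
  unfold o
  ring

theorem o_rot (a b c : Pt) : o b c a = o a b c := by
  unfold o
  ring

theorem o_rot' (a b c : Pt) : o c a b = o a b c := by
  unfold o
  ring

theorem o_swap13 (a b c : Pt) : o c b a = -o a b c := by
  unfold o
  ring

/-- soundness of `sg` -/
theorem sg_sound {m : ℕ} {P : Bool → ℕ → Pt} {σ : Bool → Bool → Bool → Bool} (h : Hom m P σ)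
    (u v w : Bool × ℕ) (hu : u.2 < m) (hv : v.2 < m) (hw : w.2 < m) (huv : u.2 ≠ v.2)
    (huw : u.2 ≠ w.2) (hvw : v.2 ≠ w.2) :
    (sg σ u v w = true → 0 < o (pt P u) (pt P v) (pt P w)) ∧
    (sg σ u v w = false → o (pt P u) (pt P v) (pt P w) < 0) := by
  unfold sg pt
  split_ifs with h1 h2 h3 h4 h5
  · exact h u.2 v.2 w.2 h1 h2 hw u.1 v.1 w.1
  · have h6 := h u.2 w.2 v.2 h3 (by omega) hv u.1 w.1 v.1
    rw [o_swap23 (P u.1 u.2) (P w.1 w.2) (P v.1 v.2)]
    refine ⟨fun h7 => ?_, fun h7 => ?_⟩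
    · have h8 := h6.2 (by simpa using h7)
      linarith
    · have h8 := h6.1 (by simpa using h7)
      linarith
  · have h6 := h w.2 u.2 v.2 (by omega) h1 hv w.1 u.1 v.1
    rw [o_rot (P w.1 w.2) (P u.1 u.2) (P v.1 v.2)]
    exact h6
  · have h6 := h v.2 u.2 w.2 (by omega) h4 hw v.1 u.1 w.1
    rw [o_swap12 (P v.1 v.2) (P u.1 u.2) (P w.1 w.2)]
    refine ⟨fun h7 => ?_, fun h7 => ?_⟩
    · have h8 := h6.2 (by simpa using h7)
      linarith
    · have h8 := h6.1 (by simpa using h7)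
      linarith
  · have h6 := h v.2 w.2 u.2 h5 (by omega) hu v.1 w.1 u.1
    rw [o_rot' (P v.1 v.2) (P w.1 w.2) (P u.1 u.2)]
    exact h6
  · have h6 := h w.2 v.2 u.2 (by omega) (by omega) hu w.1 v.1 u.1
    rw [o_swap13 (P w.1 w.2) (P v.1 v.2) (P u.1 u.2)]
    refine ⟨fun h7 => ?_, fun h7 => ?_⟩
    · have h8 := h6.2 (by simpa using h7)
      linarith
    · have h8 := h6.1 (by simpa using h7)
      linarith

/-- the same in one statement with the sign as a Bool -/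
theorem sg_iff {m : ℕ} {P : Bool → ℕ → Pt} {σ : Bool → Bool → Bool → Bool} (h : Hom m P σ)
    (u v w : Bool × ℕ) (hu : u.2 < m) (hv : v.2 < m) (hw : w.2 < m) (huv : u.2 ≠ v.2)
    (huw : u.2 ≠ w.2) (hvw : v.2 ≠ w.2) :
    (sg σ u v w = true ↔ 0 < o (pt P u) (pt P v) (pt P w)) ∧
    (sg σ u v w = false ↔ o (pt P u) (pt P v) (pt P w) < 0) := by
  obtain ⟨h1, h2⟩ := sg_sound h u v w hu hv hw huv huw hvw
  cases hs : sg σ u v w with
  | true =>
    have h3 := h1 hs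
    refine ⟨⟨fun _ => h3, fun _ => rfl⟩, ⟨fun h4 => ?_, fun h4 => ?_⟩⟩
    · exact absurd h4 (by decide)
    · exact absurd h4 (not_lt.mpr h3.le)
  | false =>
    have h3 := h2 hs
    refine ⟨⟨fun h4 => ?_, fun h4 => ?_⟩, ⟨fun _ => h3, fun _ => rfl⟩⟩
    · exact absurd h4 (by decide)
    · exact absurd h4 (not_lt.mpr h3.le)

/-- products of signs -/
theorem mul_sign {x y : ℝ} {s t : Bool} (hx1 : s = true → 0 < x) (hx2 : s = false → x < 0)
    (hy1 : t = true → 0 < y) (hy2 : t = false → y < 0) :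
    ((s == t) = true → 0 < x * y) ∧ ((s == t) = false → x * y < 0) := by
  cases s <;> cases t
  · exact ⟨fun _ => mul_pos_of_neg_of_neg (hx2 rfl) (hy2 rfl), fun h => absurd h (by decide)⟩
  · exact ⟨fun h => absurd h (by decide), fun _ => mul_neg_of_neg_of_pos (hx2 rfl) (hy1 rfl)⟩
  · exact ⟨fun h => absurd h (by decide), fun _ => mul_neg_of_pos_of_neg (hx1 rfl) (hy2 rfl)⟩
  · exact ⟨fun _ => mul_pos (hx1 rfl) (hy1 rfl), fun h => absurd h (by decide)⟩

theorem o_four (a b c d : Pt) : o b c d - o a c d + o a b d - o a b c = 0 := by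
  unfold o
  ring

theorem o_gp (a b c d e : Pt) : o a b c * o a d e - o a b d * o a c e + o a b e * o a c d = 0 := by
  unfold o
  ring

theorem v4 {m : ℕ} {P : Bool → ℕ → Pt} {σ : Bool → Bool → Bool → Bool} (hm : 4 ≤ m)
    (h : Hom m P σ) (b1 b2 b3 b4 : Bool) : f4 σ b1 b2 b3 b4 = true := by
  have h1 := h 1 2 3 (by norm_num) (by norm_num) (by omega) b2 b3 b4
  have h2 := h 0 2 3 (by norm_num) (by norm_num) (by omega) b1 b3 b4
  have h3 := h 0 1 3 (by norm_num) (by norm_num) (by omega) b1 b2 b4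
  have h4 := h 0 1 2 (by norm_num) (by norm_num) (by omega) b1 b2 b3
  have h5 := o_four (P b1 0) (P b2 1) (P b3 2) (P b4 3)
  unfold f4
  cases e1 : σ b2 b3 b4 <;> cases e2 : σ b1 b3 b4 <;> cases e3 : σ b1 b2 b4 <;>
    cases e4 : σ b1 b2 b3 <;> first | rfl | skip
  · have k1 := h1.2 e1
    have k2 := h2.1 e2
    have k3 := h3.2 e3
    have k4 := h4.1 e4
    linarith
  · have k1 := h1.1 e1
    have k2 := h2.2 e2
    have k3 := h3.1 e3
    have k4 := h4.2 e4
    linarith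

theorem gp_sound {m : ℕ} {P : Bool → ℕ → Pt} {σ : Bool → Bool → Bool → Bool} (h : Hom m P σ)
    (a b c d e : Bool × ℕ) (ha : a.2 < m) (hb : b.2 < m) (hc : c.2 < m) (hd : d.2 < m)
    (he : e.2 < m) (hab : a.2 ≠ b.2) (hac : a.2 ≠ c.2) (had : a.2 ≠ d.2) (hae : a.2 ≠ e.2)
    (hbc : b.2 ≠ c.2) (hbd : b.2 ≠ d.2) (hbe : b.2 ≠ e.2) (hcd : c.2 ≠ d.2) (hce : c.2 ≠ e.2)
    (hde : d.2 ≠ e.2) : gp σ a b c d e = true := by
  have s1 := sg_sound h a b c ha hb hc hab hac hbc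
  have s2 := sg_sound h a d e ha hd he had hae hde
  have s3 := sg_sound h a b d ha hb hd hab had hbd
  have s4 := sg_sound h a c e ha hc he hac hae hce
  have s5 := sg_sound h a b e ha hb he hab hae hbe
  have s6 := sg_sound h a c d ha hc hd hac had hcd
  have t1 := mul_sign s1.1 s1.2 s2.1 s2.2
  have t2 := mul_sign s3.1 s3.2 s4.1 s4.2
  have t3 := mul_sign s5.1 s5.2 s6.1 s6.2
  have h5 := o_gp (pt P a) (pt P b) (pt P c) (pt P d) (pt P e)
  unfold gp
  cases e1 : (sg σ a b c == sg σ a d e) <;> cases e2 : (sg σ a b d == sg σ a c e) <;>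
    cases e3 : (sg σ a b e == sg σ a c d) <;> first | rfl | skip
  · have k1 := t1.2 e1
    have k2 := t2.1 e2
    have k3 := t3.2 e3
    linarith
  · have k1 := t1.1 e1
    have k2 := t2.2 e2
    have k3 := t3.1 e3
    linarith

theorem v5 {m : ℕ} {P : Bool → ℕ → Pt} {σ : Bool → Bool → Bool → Bool} (hm : 5 ≤ m)
    (h : Hom m P σ) (b0 b1 b2 b3 b4 : Bool) : f5 σ b0 b1 b2 b3 b4 = true := by
  have i0 : (0 : ℕ) < m := by omega
  have i1 : (1 : ℕ) < m := by omega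
  have i2 : (2 : ℕ) < m := by omega
  have i3 : (3 : ℕ) < m := by omega
  have i4 : (4 : ℕ) < m := by omega
  unfold f5
  rw [gp_sound h (b0, 0) (b1, 1) (b2, 2) (b3, 3) (b4, 4) i0 i1 i2 i3 i4,
    gp_sound h (b1, 1) (b0, 0) (b2, 2) (b3, 3) (b4, 4) i1 i0 i2 i3 i4,
    gp_sound h (b2, 2) (b0, 0) (b1, 1) (b3, 3) (b4, 4) i2 i0 i1 i3 i4,
    gp_sound h (b3, 3) (b0, 0) (b1, 1) (b2, 2) (b4, 4) i3 i0 i1 i2 i4,
    gp_sound h (b4, 4) (b0, 0) (b1, 1) (b2, 2) (b3, 3) i4 i0 i1 i2 i3]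
  · rfl
  all_goals norm_num

theorem okB_of_hom {m : ℕ} {P : Bool → ℕ → Pt} {σ : Bool → Bool → Bool → Bool} (hm : 5 ≤ m)
    (h : Hom m P σ) : okB σ = true := by
  unfold okB
  rw [Bool.and_eq_true]
  refine ⟨?_, ?_⟩
  · exact allB_of fun b1 => allB_of fun b2 => allB_of fun b3 => allB_of fun b4 =>
      v4 (by omega) h b1 b2 b3 b4
  · exact allB_of fun b0 => allB_of fun b1 => allB_of fun b2 => allB_of fun b3 =>
      allB_of fun b4 => v5 hm h b0 b1 b2 b3 b4

theorem okB_of_hom12 {P : Bool → ℕ → Pt} {σ : Bool → Bool → Bool → Bool}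
    (h : Hom 12 P σ) : okB σ = true := okB_of_hom (by norm_num) h

end Pool.Agent.W376.PT
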